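import Pool.Agent.H86.BlM

namespace Pool.Agent.Results.MP_d0fcce_an.SemiIffProj
open Pool.Agent.H86.Bl

theorem result (A : Type) [BL A] [TopologicalSpace.SeparableSpace A] (hA : SemiProj.{0} A) :
    Proj.{0} A := fun _ _ _ hJ _ hT _ hε =>
  semi_lift hA (φ := ContinuousLinearMap.id ℝ A) (fun _ => rfl) ContinuousLinearMap.norm_id_le
    hJ hT hε

end Pool.Agent.Results.MP_d0fcce_an.SemiIffProj
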